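import Mathlib
import Pool.Agent.Q90.OpenConv2

/-!
# MP_09b497_an, Q2: `ℓ¹(G)` of an infinite torsion group is not uniformly open

`H937R3.EllOne G` is the Banach algebra `ℓ¹(G)` of the discrete group `G`: Mathlib's Banach space
`lp (fun _ : G => ℂ) 1` with the convolution product `(f * h)(z) = ∑ₓ f(x) h(x⁻¹ z)`.
`Q90.OpenConv.UniformlyOpenMul A`: for every `ε > 0` there is `δ > 0` such that for all `a, b` in
`A` every element of the ball `B(ab, δ)` is a product `x y` with `x ∈ B(a, ε)`, `y ∈ B(b, ε)`.

Proof. If `G` is not commutative, it has a non-central element `h` of finite order, and one of the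
spectral idempotents `p = (1/n) ∑ ζ^{-j} δ_{h^j}` is not central in `ℓ¹(G)`; then multiplication is
not even open, at the point `(p, 1 - p)` or `(1 - p, p)` (a computation with `2 × 2` blocks).  If
`G` is commutative, uniform openness (at the points `(t r, 0)`, with target `δ/2`) would give a
constant `C` with `‖r‖² ≤ C ‖r²‖` for all `r`, but the products of elements `1 + i δ_g` (`g² = 1`)
or `1 + δ_g - δ_{g²}` in general position violate this.
-/

set_option autoImplicit false

namespace Pool.Agent.Results.MP_09b497_an.TorsionGroups

open H937R3 Q90.OpenConv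

/-- Let `G` be an infinite group in which every element has finite order (for instance an infinite
group of bounded exponent).  Then `ℓ¹(G)` does not have uniformly open multiplication. -/
theorem result (G : Type*) [DecidableEq G] [Group G] [Infinite G]
    (hG : ∀ g : G, ∃ n : ℕ, 1 ≤ n ∧ g ^ n = 1) : ¬ UniformlyOpenMul (EllOne G) :=
  not_uniformlyOpen_of_torsion G fun g => by
    obtain ⟨n, hn, h⟩ := hG g
    exact ⟨n, by omega, h⟩

end Pool.Agent.Results.MP_09b497_an.TorsionGroups
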